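import Pool.Agent.T2h44.LM.Main

/-!
# Infinitely many Legendrian knots have a stabilization of smaller mosaic number

The answer to Q1 is yes. Legendrian knots are taken as oriented fronts, written as words in left cusps,
right cusps and crossings, up to far commutations (planar isotopies of fronts) and the Legendrian
Reidemeister moves (Swiatkowski: this is Legendrian isotopy). A mosaic is a suitably connected array of
the ten tiles of the problem, and its front is read off along the diagonals of the array (the verticals
of the rotated array). The definitions are in `Pool.Agent.T2h44.LM.Defs`.

Proof. (1) Every Legendrian link with an `n`-mosaic has `4 rot + tb ≤ n ^ 2`: a tile with `D` downward and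
`U` upward cusps and the crossing number `P - N` satisfies
`(3 / 2) D - (5 / 2) U + P - N ≤ 1 + (d - u) / 2`, where `d` and `u` are the numbers of its edges which
the link crosses downwards and upwards, and the sum of `d - u` over all tiles vanishes.
(2) Let `n = 2 P + 3` and `a = P (2 P + 1)`. The unknot with `a` zigzags with downward cusps on its upper
strand has `4 rot + tb = 3 a - 1 > n ^ 2` (for `P ≥ 6`), so that its mosaic number is larger than `n`.
(3) Adding zigzags with upward cusps to it one gets a knot with an `n`-mosaic: a snake which goes up and
down through the columns of the rotated square, so that the downward columns consist of downward cusps
and the upward columns of upward cusps, and almost all tiles contain two cusps.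
(4) These zigzags are added one at a time. Hence at some step a knot `L` of mosaic number greater than `n`
has a stabilization of mosaic number at most `n`. As `rot - tb = 2 a + 1` for all these knots, there
are infinitely many such knots `L`. (5) The knots which are obtained from the unknot by zigzags have
mosaics, by an explicit recursion, so that all mosaic numbers in the statement are finite.
-/

set_option autoImplicit false

namespace Pool.Agent.Results.MP_7f4ea8_gt.StabilizationLowersMosaic

open Pool.Agent.T2h44.LM

/-- There are infinitely many Legendrian knots `L`, of finite mosaic number, which have a stabilization
`L'` whose Legendrian mosaic number is smaller than that of `L`. -/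
theorem result : Set.Infinite {L : Link | L.IsKnot ∧ mosaicNumber L ≠ ⊤ ∧
    ∃ L' : Link, IsStabilization L L' ∧ mosaicNumber L' < mosaicNumber L} :=
  main

end Pool.Agent.Results.MP_7f4ea8_gt.StabilizationLowersMosaic
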